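import Pool.Agent.Q171.CA.Main

/-!
# Every reversible abelian cellular automaton that randomizes in density randomizes strongly
-/

namespace Pool.Agent.Results.MP_b3f678_an.DensityIsStrong

open Pool.Agent.Q171.CA

/-- Let `A` be a finite abelian group (with the discrete topology and its Borel sigma algebra).
Every reversible abelian cellular automaton on `A ^ ℤ` that is randomizing in density is
strongly randomizing. -/
theorem result (A : Type) [AddCommGroup A] [Fintype A] [TopologicalSpace A] [DiscreteTopology A]
    [MeasurableSpace A] [BorelSpace A] (F : (ℤ → A) →+ (ℤ → A)) (hF : IsAbelianCA F)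
    (hb : Function.Bijective F) (hd : RandomizingInDensity F) : StronglyRandomizing F :=
  main hF hb hd

end Pool.Agent.Results.MP_b3f678_an.DensityIsStrong
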